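import Pool.Agent.Q46.ND.StmE

/-!
# Project LN (helper46), job EI: no critical points at infinity
-/

set_option autoImplicit false

open MvPolynomial

namespace Pool.Agent.Q238.LN

open Pool.Agent.Q46.ND

theorem t_EI : P_EI := by
  intro k _ m d hd Φ δ hδ hR k₁ _ ψ v hv
  funext i
  obtain ⟨g, c, hgc, -, -, hc⟩ := hR (m * (d - 2) + 1) (X i ^ (m * (d - 2) + 1))
    (isHomogeneous_X_pow i _)
  have hc0 : ∀ β, c β = 0 := by
    intro β
    apply hc
    have h1 : ∑ j, (β j : ℕ) ≤ ∑ _j : Fin m, (d - 2) :=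
      Finset.sum_le_sum fun j _ => by
        have := (β j).2
        omega
    rw [Finset.sum_const, Finset.card_univ, Fintype.card_fin, smul_eq_mul] at h1
    omega
  have h1 : C δ * X i ^ (m * (d - 2) + 1) = ∑ j, g j * pderiv j Φ := by
    rw [hgc]
    have : ∑ β, C (c β) * mon β = (0 : MvPolynomial (Fin m) k) :=
      Finset.sum_eq_zero fun β _ => by rw [hc0 β, map_zero, zero_mul]
    rw [this, add_zero]
  have h2 := congrArg (fun p => eval v (map ψ p)) h1
  have h3 : eval v (map ψ (∑ j, g j * pderiv j Φ)) = 0 := by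
    rw [map_sum, map_sum]
    refine Finset.sum_eq_zero fun j _ => ?_
    rw [map_mul, map_mul, hv j, mul_zero]
  have h4 : eval v (map ψ (C δ * X i ^ (m * (d - 2) + 1))) = ψ δ * v i ^ (m * (d - 2) + 1) := by
    rw [map_mul, map_mul, map_pow, map_pow, map_C, map_X, eval_C, eval_X]
  have h5 : ψ δ * v i ^ (m * (d - 2) + 1) = 0 := by
    rw [← h4, ← h3]
    exact h2
  have h6 : ψ δ ≠ 0 := (map_ne_zero ψ).2 hδ
  exact pow_eq_zero_iff (Nat.succ_ne_zero _) |>.1 ((mul_eq_zero.1 h5).resolve_left h6)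

end Pool.Agent.Q238.LN
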