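import Pool.Agent.Q46.ND.StmE

/-!
# Project LN (helper46), job EM1: generic elimination
-/

set_option autoImplicit false

open MvPolynomial

namespace Pool.Agent.Q238.LN.EM1

open Pool.Agent.Q46.ND

section aff

variable {A B : Type} [CommRing A] [CommRing B] {m d : ℕ}

lemma aff_map (φ : A →+* B) (f : MvPolynomial (Fin (m + 1)) A) :
    aff (map φ f) = map φ (aff f) := by
  have h : (aeval (Fin.cons 1 X : Fin (m + 1) → MvPolynomial (Fin m) B)).toRingHom.comp (map φ) =
      (map φ).comp (aeval (Fin.cons 1 X : Fin (m + 1) → MvPolynomial (Fin m) A)).toRingHom := by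
    apply MvPolynomial.ringHom_ext
    · intro a
      simp
    · intro i
      refine Fin.cases ?_ (fun i => ?_) i
      · simp
      · simp
  exact congrArg (fun g => g f) h

lemma aff_monomial (α : Fin (m + 1) →₀ ℕ) (c : A) :
    aff (monomial α c) = C c * ∏ i : Fin m, X i ^ α i.succ := by
  unfold aff
  rw [aeval_monomial, Finsupp.prod_fintype _ _ (fun i => pow_zero _), Fin.prod_univ_succ]
  simp only [Fin.cons_zero, one_pow, one_mul, Fin.cons_succ]
  rfl

lemma aff_sum {ι : Type} (s : Finset ι) (f : ι → MvPolynomial (Fin (m + 1)) A) :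
    aff (∑ i ∈ s, f i) = ∑ i ∈ s, aff (f i) := by
  unfold aff
  rw [map_sum]

lemma aff_hom (α : Fin (m + 1) →₀ ℕ) (c : A) :
    (aff (monomial α c)).IsHomogeneous (∑ i : Fin m, α i.succ) := by
  rw [aff_monomial]
  have h1 := (isHomogeneous_C (Fin m) c).mul
    (IsHomogeneous.prod Finset.univ (fun i : Fin m => (X i : MvPolynomial (Fin m) A) ^ α i.succ)
      (fun i => α i.succ) fun i _ => isHomogeneous_X_pow i _)
  rw [zero_add] at h1
  exact h1

lemma deg_eq (α : Fin (m + 1) →₀ ℕ) : α.degree = α 0 + ∑ i : Fin m, α i.succ := by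
  rw [Finsupp.degree_eq_sum, Fin.sum_univ_succ]

/-- a form is the sum of its monomials -/
lemma sum_coeff (p : Mon m d → Prop) [DecidablePred p] (f : MvPolynomial (Fin (m + 1)) A)
    (hf : f.IsHomogeneous d) (h0 : ∀ α : Mon m d, ¬ p α → coeff α.1 f = 0) :
    ∑ α : {j : Mon m d // p j}, monomial α.1.1 (coeff α.1.1 f) = f := by
  classical
  ext β
  rw [coeff_sum]
  simp only [coeff_monomial]
  by_cases hβ : β.degree = d
  · by_cases hp : p ⟨β, hβ⟩
    · rw [Finset.sum_eq_single ⟨⟨β, hβ⟩, hp⟩]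
      · rw [if_pos rfl]
      · intro γ _ hγ
        rw [if_neg]
        intro h
        apply hγ
        exact Subtype.ext (Subtype.ext h)
      · intro h
        exact absurd (Finset.mem_univ _) h
    · rw [h0 _ hp]
      refine Finset.sum_eq_zero fun γ _ => ?_
      rw [if_neg]
      intro h
      apply hp
      have : γ.1 = ⟨β, hβ⟩ := Subtype.ext h
      rw [← this]
      exact γ.2
  · rw [hf.coeff_eq_zero hβ]
    refine Finset.sum_eq_zero fun γ _ => ?_
    rw [if_neg]
    intro h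
    apply hβ
    rw [← h]
    exact γ.1.2

end aff

section main

variable {m d : ℕ}

/-- the exponents without `x_0` -/
abbrev I0 (m d : ℕ) : Type := {j : Mon m d // j.1 0 = 0}

/-- the exponents other than `x_0 ^ d` -/
abbrev I1 (m d : ℕ) : Type := {j : Mon m d // j ≠ v0 m d}

lemma ne_v0 (hd : 3 ≤ d) {j : Mon m d} (hj : j.1 0 = 0) : j ≠ v0 m d := by
  rintro rfl
  have h1 : (v0 m d).1 0 = d := by
    unfold v0
    simp
  omega

/-- the inclusion -/
def inc (hd : 3 ≤ d) (j : I0 m d) : I1 m d := ⟨j.1, ne_v0 hd j.2⟩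

/-- the inclusion of the rings -/
noncomputable def incR (hd : 3 ≤ d) : MvPolynomial (I0 m d) ℤ →+* MvPolynomial (I1 m d) ℤ :=
  (rename (inc hd)).toRingHom

lemma incR_X (hd : 3 ≤ d) (β : I0 m d) : incR hd (X β) = X (inc hd β) := rename_X _ _

/-- the part of the generic form without `x_0` over the small ring -/
noncomputable def topT (m d : ℕ) : MvPolynomial (Fin m) (MvPolynomial (I0 m d) ℤ) :=
  aff (∑ α : I0 m d, monomial α.1.1 (X α))

lemma topT_hom : (topT m d).IsHomogeneous d := by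
  unfold topT
  rw [aff_sum]
  refine IsHomogeneous.sum _ _ _ fun α _ => ?_
  have h := aff_hom (A := MvPolynomial (I0 m d) ℤ) α.1.1 (X α)
  have h2 := deg_eq α.1.1
  rw [α.1.2, α.2, zero_add] at h2
  rwa [← h2] at h

lemma map_topT (hd : 3 ≤ d) :
    map (incR hd) (topT m d) = top m d := by
  classical
  unfold topT top
  rw [← aff_map, map_sum]
  congr 1
  refine Finset.sum_bij (fun β _ => inc hd β) ?_ ?_ ?_ ?_
  · intro β _
    rw [Finset.mem_filter]
    exact ⟨Finset.mem_univ _, β.2⟩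
  · intro β _ γ _ h
    have := congrArg Subtype.val h
    exact Subtype.ext this
  · intro α hα
    rw [Finset.mem_filter] at hα
    exact ⟨⟨α.1, hα.2⟩, Finset.mem_univ _, rfl⟩
  · intro β _
    rw [map_monomial, incR_X]
    rfl

lemma top_hom (hd : 3 ≤ d) : (top m d).IsHomogeneous d := by
  rw [← map_topT hd]
  exact topT_hom.map _

lemma deg_diff (hd : 3 ≤ d) : (aff (gen m d) - top m d).totalDegree < d := by
  classical
  unfold gen top
  have h1 : (∑ α : I1 m d, monomial α.1.1 (X α : A0 m d)) =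
      (∑ α ∈ Finset.univ.filter (fun α : I1 m d => α.1.1 0 = 0), monomial α.1.1 (X α : A0 m d)) +
        ∑ α ∈ Finset.univ.filter (fun α : I1 m d => ¬ α.1.1 0 = 0), monomial α.1.1 (X α) :=
    (Finset.sum_filter_add_sum_filter_not _ _ _).symm
  have h2 : aff (∑ α : I1 m d, monomial α.1.1 (X α : A0 m d)) -
      aff (∑ α ∈ Finset.univ.filter (fun α : I1 m d => α.1.1 0 = 0), monomial α.1.1 (X α)) =
      ∑ α ∈ Finset.univ.filter (fun α : I1 m d => ¬ α.1.1 0 = 0),
        aff (monomial α.1.1 (X α : A0 m d)) := by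
    rw [h1, ← aff_sum]
    unfold aff
    rw [map_add, add_sub_cancel_left]
  have h3 : (aff (∑ α : I1 m d, monomial α.1.1 (X α : A0 m d)) -
      aff (∑ α ∈ Finset.univ.filter (fun α : I1 m d => α.1.1 0 = 0), monomial α.1.1 (X α))).totalDegree
        ≤ d - 1 := by
    rw [h2]
    refine (totalDegree_finsetSum _ _).trans (Finset.sup_le fun α hα => ?_)
    rw [Finset.mem_filter] at hα
    have h4 := aff_hom (A := A0 m d) α.1.1 (X α)
    refine h4.totalDegree_le.trans ?_
    have h5 := deg_eq α.1.1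
    rw [α.1.2] at h5
    have h6 := hα.2
    omega
  have h7 : d - 1 < d := by omega
  refine lt_of_le_of_lt ?_ h7
  convert h3

/-- the special form -/
noncomputable def fs (d : ℕ) (a : Fin m → ℂ) : MvPolynomial (Fin (m + 1)) ℂ :=
  ∑ i : Fin m, (X i.succ ^ d - C (a i) * X 0 ^ (d - 1) * X i.succ)

lemma fs_hom (hd : 3 ≤ d) (a : Fin m → ℂ) : (fs d a).IsHomogeneous d := by
  refine IsHomogeneous.sum _ _ _ fun i _ => ?_
  refine (isHomogeneous_X_pow _ _).sub ?_
  have h := ((isHomogeneous_C (Fin (m + 1)) (a i)).mul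
    (isHomogeneous_X_pow (R := ℂ) (0 : Fin (m + 1)) (d - 1))).mul (isHomogeneous_X ℂ i.succ)
  have e : 0 + (d - 1) + 1 = d := by omega
  rwa [e] at h

lemma fs_v0 (hd : 3 ≤ d) (a : Fin m → ℂ) : coeff (v0 m d).1 (fs d a) = 0 := by
  classical
  unfold fs
  rw [coeff_sum]
  refine Finset.sum_eq_zero fun i _ => ?_
  rw [coeff_sub, coeff_mul_X', if_neg, sub_zero, X_pow_eq_monomial, coeff_monomial, if_neg]
  · intro h
    have h1 := DFunLike.congr_fun h 0
    unfold v0 at h1
    rw [Finsupp.single_eq_same, Finsupp.single_apply, if_neg (Fin.succ_ne_zero i)] at h1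
    omega
  · rw [Finsupp.mem_support_iff, not_not]
    unfold v0
    rw [Finsupp.single_apply, if_neg (Fin.succ_ne_zero i).symm]

/-- the part without `x_0` -/
noncomputable def ps (m d : ℕ) : MvPolynomial (Fin (m + 1)) ℂ := ∑ i : Fin m, X i.succ ^ d

lemma ps_hom : (ps m d).IsHomogeneous d :=
  IsHomogeneous.sum _ _ _ fun _ _ => isHomogeneous_X_pow _ _

lemma ps_coeff (α : Fin (m + 1) →₀ ℕ) (h : ¬ α 0 = 0) : coeff α (ps m d) = 0 := by
  classical
  unfold ps
  rw [coeff_sum]
  refine Finset.sum_eq_zero fun i _ => ?_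
  rw [X_pow_eq_monomial, coeff_monomial, if_neg]
  intro h1
  apply h
  rw [← h1, Finsupp.single_apply, if_neg (Fin.succ_ne_zero i)]

lemma fs_coeff (hd : 3 ≤ d) (a : Fin m → ℂ) (α : Fin (m + 1) →₀ ℕ) (h : α 0 = 0) :
    coeff α (fs d a) = coeff α (ps m d) := by
  classical
  unfold fs ps
  rw [coeff_sum, coeff_sum]
  refine Finset.sum_congr rfl fun i _ => ?_
  have e : (C (a i) * X 0 ^ (d - 1) * X i.succ : MvPolynomial (Fin (m + 1)) ℂ) =
      C (a i) * X i.succ * X 0 ^ (d - 2) * X 0 := by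
    have : d - 1 = (d - 2) + 1 := by omega
    rw [this, pow_succ]
    ring
  rw [coeff_sub, e, coeff_mul_X', if_neg, sub_zero]
  rw [Finsupp.mem_support_iff, not_not]
  exact h

/-- the values of the coefficients -/
noncomputable def sv (m d : ℕ) (a : Fin m → ℂ) : A0 m d →+* ℂ :=
  eval₂Hom (Int.castRingHom ℂ) fun α => coeff α.1.1 (fs d a)

lemma sv_X (a : Fin m → ℂ) (α : I1 m d) : sv m d a (X α) = coeff α.1.1 (fs d a) := by
  unfold sv
  rw [eval₂Hom_X']

lemma map_gen (hd : 3 ≤ d) (a : Fin m → ℂ) : map (sv m d a) (gen m d) = fs d a := by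
  classical
  unfold gen
  rw [map_sum]
  have h := sum_coeff (fun j : Mon m d => j ≠ v0 m d) (fs d a) (fs_hom hd a) (fun α hα => by
    rw [not_not] at hα
    rw [hα]
    exact fs_v0 hd a)
  rw [← h]
  refine Finset.sum_congr rfl fun α _ => ?_
  rw [map_monomial, sv_X]

lemma aff_fs (a : Fin m → ℂ) : aff (fs d a) = ∑ i, (X i ^ d - C (a i) * X i) := by
  unfold fs
  rw [aff_sum]
  refine Finset.sum_congr rfl fun i _ => ?_
  unfold aff
  rw [map_sub, map_pow, map_mul, map_mul, map_pow, aeval_X, aeval_X, Fin.cons_zero, one_pow,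
    Fin.cons_succ, mul_one, ← algebraMap_eq, AlgHom.commutes]
  rfl

lemma aff_ps : aff (ps m d) = ∑ i, X i ^ d := by
  unfold ps
  rw [aff_sum]
  refine Finset.sum_congr rfl fun i _ => ?_
  unfold aff
  rw [map_pow, aeval_X, Fin.cons_succ]

lemma map_top (hd : 3 ≤ d) (a : Fin m → ℂ) :
    map ((sv m d a).comp (incR hd)) (topT m d) = ∑ i, X i ^ d := by
  classical
  unfold topT
  rw [← aff_map, ← aff_ps, map_sum]
  congr 1
  have h := sum_coeff (fun j : Mon m d => j.1 0 = 0) (ps m d) ps_hom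
    (fun α hα => ps_coeff α.1 hα)
  rw [← h]
  refine Finset.sum_congr rfl fun α _ => ?_
  rw [map_monomial, RingHom.comp_apply, incR_X, sv_X]
  congr 1
  exact fs_coeff hd a α.1.1 α.2

end main

theorem t_EM1 (hEB : P_EB) (hED : P_ED) (hEE0 : P_EE0) (hEE : P_EE) (hEF : P_EF) (hEG : P_EG)
    (hEJ : P_EJ) (hEK : P_EK) : P_EM1 := by
  classical
  intro m d hm hd
  obtain ⟨a, t, hcrit, hinj⟩ := hEJ m d hd
  set s := sv m d a with hs
  set inc' : MvPolynomial (I0 m d) ℤ →+* MvPolynomial (I1 m d) ℤ := incR hd with hinc'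
  obtain ⟨δ₀, hδ₀, hR₀⟩ := hEB (T := MvPolynomial (I0 m d) ℤ) (k := ℂ) (m := m) (d := d)
    (by omega) (by exact_mod_cast (show d ≠ 0 by omega)) (s.comp inc') (topT m d) topT_hom
    (map_top hd a)
  have hR : RedHom d (top m d) (inc' δ₀) := by
    have := hEE0 inc' (topT m d) δ₀ hR₀
    rwa [map_topT hd] at this
  have hsδ : s (inc' δ₀) ≠ 0 := hδ₀
  obtain ⟨N, M, hM⟩ := hED (by omega) (aff (gen m d)) (top m d) (inc' δ₀) (top_hom hd)
    (deg_diff hd) hR
  obtain ⟨e1, e2, -, e4, e5⟩ := hEE s (aff (gen m d)) (inc' δ₀ ^ N) M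
  have hMs := e1 hM
  rw [← aff_map, map_gen hd a, aff_fs] at hMs
  have hu : s (inc' δ₀ ^ N) ≠ 0 := by
    rw [map_pow]
    exact pow_ne_zero _ hsδ
  have hlead : s ((chi (inc' δ₀ ^ N) M).coeff (Fintype.card (BB m d))) ≠ 0 := by
    rw [e5, map_pow]
    exact pow_ne_zero _ hu
  have hroots : ∃ S : Finset ℂ, S.card = Fintype.card (BB m d) ∧
      ∀ z ∈ S, ((chi (inc' δ₀ ^ N) M).map s).eval z = 0 := by
    refine ⟨Finset.univ.image fun β : BB m d =>
      -eval (t β) (∑ i, (X i ^ d - C (a i) * X i) : MvPolynomial (Fin m) ℂ), ?_, ?_⟩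
    · rw [Finset.card_image_of_injective, Finset.card_univ]
      intro β γ h
      exact hinj (neg_injective h)
    · intro z hz
      rw [Finset.mem_image] at hz
      obtain ⟨β, -, rfl⟩ := hz
      rw [← e2]
      have hf := (hEF _ _ _ hMs (t β)
        (-eval (t β) (∑ i, (X i ^ d - C (a i) * X i) : MvPolynomial (Fin m) ℂ)) (hcrit β)
        (add_neg_cancel _)).1
      have hg := (hEG (RingHom.id ℂ) (s (inc' δ₀ ^ N)) (M.map s)
        (-eval (t β) (∑ i, (X i ^ d - C (a i) * X i) : MvPolynomial (Fin m) ℂ)) hu).1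
        (fun β' => eval (t β) (mon β'))
      apply hg
      · intro h0
        have h1 := congrFun h0 (fun _ => ⟨0, by omega⟩)
        have h2 : eval (t β) (mon (fun _ => ⟨0, by omega⟩ : BB m d)) = 1 := by
          unfold mon
          simp
        have h3 : eval (t β) (mon (fun _ => ⟨0, by omega⟩ : BB m d)) = 0 := h1
        rw [h2] at h3
        exact one_ne_zero h3
      · have e : (((s (inc' δ₀ ^ N) * -eval (t β) (∑ i, (X i ^ d - C (a i) * X i) :
            MvPolynomial (Fin m) ℂ)) • (1 : Matrix (BB m d) (BB m d) ℂ) + M.map s).map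
              (RingHom.id ℂ)) =
            ((s (inc' δ₀ ^ N) * -eval (t β) (∑ i, (X i ^ d - C (a i) * X i) :
            MvPolynomial (Fin m) ℂ)) • (1 : Matrix (BB m d) (BB m d) ℂ) + M.map s) := by
          ext i j
          rfl
        rw [e]
        exact hf
  obtain ⟨R, hRs, hRmem⟩ := hEK s (chi (inc' δ₀ ^ N) M) (Fintype.card (BB m d)) e4 hlead hroots
  refine ⟨inc' δ₀, R, N, M, ?_, ?_, ?_, hR, hM, hRmem⟩
  · intro h
    apply hsδ
    rw [h, map_zero]
  · intro h
    apply hRs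
    rw [h, map_zero]
  · intro α hα
    have h1 := vars_rename (inc hd) δ₀ hα
    rw [Finset.mem_image] at h1
    obtain ⟨β, -, rfl⟩ := h1
    exact β.2

end Pool.Agent.Q238.LN.EM1
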